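import Mathlib
import Pool.Agent.N534.HC.State
import Pool.Agent.N534.AS.Ten
import Pool.Agent.U309.ED.Ten4

/-!
# Restrictions of scalars of random elliptic curves: the L-function of the tensor induction at the edge point

`K` is an arbitrary number field of degree `d` with an integral basis `ω`. Let `E_c : y² = x³ + A(u) x + B(u) + t` be elliptic curves over `K`,
`t = ∑ t_i ω_i`, `A ≠ 0`, `B` polynomials over `𝓞 K` in finitely many
integer variables `u_j`, `c = (t, u)`. The restriction of scalars `A_c = Res_{K/ℚ} E_c` is an abelian variety over `ℚ` of dimension `d`, and the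
tensor induction (Asai representation) `ρ_c = ⊗-Ind_{K/ℚ} H¹(E_c)`, of dimension `2^d` and weight `d`, is a direct factor of `H^d(A_c)`. If the
conjugates of `E_c` have no complex multiplication and are not isogenous, then `ρ_c` is one of the nontrivial irreducible representations of the Sato-Tate
group of `A_c`, an extension of the Galois group of the normal closure of `K` by `SU(2)^d`; by Serre, the Sato-Tate conjecture for `A_c` is equivalent to
the statement that for all these representations the L-function has neither a pole nor a zero on the edge of the half-plane of absolute convergence.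

For a prime `p` unramified in `K` at which `E_c` has good reduction, the
trace of the `k`-th power of the Frobenius at `p` on `ρ_c` is the product over the `v ∣ p` of `tr (Frob_v^{k/g})^g`, `g = gcd(k, f_v)`, where
`f_v` is the residue degree.  (`S` below is a finite set of primes which are left out; it should contain the primes ramified in `K`.)

**Theorem** (`EdgeLaw` below). For points
`σ_H → 1 + d/2`, `(Re σ_H - 1 - d/2) log H → ∞`, and every `τ > 0`, the proportion of the members with parameters `|c_k| ≤ H` and with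
`|L(ρ_c, σ_H)| ≤ τ` converges to `Φ(τ)`, where `Φ` is a distribution function on `(0, ∞)` which does not depend on the `σ_H`, is continuous
(no atoms), strictly increasing (full support), and whose two tails are double exponentially small, from both sides:
`exp(-exp(C τ^B)) ≤ Φ(1/τ), 1 - Φ(τ) ≤ exp(-exp(c τ^{1/b}))`, `b = 2^d`.  So neither a zero nor a pole at the edge point `1 + d/2` is visible at the
distance `(large)/log H`, except for a double exponentially small proportion of the members, but all sizes of the values occur.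

The new ingredients (`Pool/Agent/U309/ED`): two-sided estimates for the tails, support and absence of atoms for sums of independent random
variables over the primes of size `1/p` which are not summable absolutely; lower bounds for the second moments of the traces `∏_{v ∣ p} a_v` of the
Frobenius at `p`, by orthogonality over the places above `p` and the number of solutions of `f(x) = f(y)` for cubic polynomials `f`. The weak
convergence to a random Euler product is in the starting library (`Pool/Agent/N534`).  Nothing about continuation is assumed or proved.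
-/

set_option autoImplicit false

open NumberField IsDedekindDomain Filter Topology

namespace Pool.Agent.Results.MP_753a9c_nt.AsaiEdgeDistribution

/-! ### Euler factors -/

section
variable {K : Type} [Field K] [NumberField K]

/-- The trace of Frobenius of `y² = x³ + a x + b` at `v`, for good reduction. -/
noncomputable def trace (a b : 𝓞 K) (v : HeightOneSpectrum (𝓞 K)) : ℤ :=
  ((Ideal.absNorm v.asIdeal : ℕ) : ℤ) -
    ((Nat.card {p : (𝓞 K ⧸ v.asIdeal) × (𝓞 K ⧸ v.asIdeal) //
      p.2 ^ 2 = p.1 ^ 3 + Ideal.Quotient.mk v.asIdeal a * p.1 + Ideal.Quotient.mk v.asIdeal b} : ℕ) : ℤ)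

/-- The root `(a + i √(4 q - a²)) / 2` of `x² - a x + q`. -/
noncomputable def eigenvalue (a : ℤ) (q : ℕ) : ℂ :=
  ((a : ℂ) + Complex.I * ((Real.sqrt (4 * q - a ^ 2) : ℝ) : ℂ)) / 2

/-- The trace `α^k + conj α^k` of the `k`-th power of the Frobenius with the trace `a`, over a field with `q` elements. -/
noncomputable def powerSum (a : ℤ) (q k : ℕ) : ℝ := 2 * (eigenvalue a q ^ k).re

/-- The trace of the `k`-th power of the Frobenius at `p` on the tensor induction `⊗-Ind_{K/ℚ} H¹(E)`, `E : y² = x³ + a x + b`. -/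
noncomputable def asaiTrace (a b : 𝓞 K) (p k : ℕ) : ℝ :=
  ∏ᶠ v : {v : HeightOneSpectrum (𝓞 K) // (p : 𝓞 K) ∈ v.asIdeal},
    powerSum (trace a b v.1) (Ideal.absNorm v.1.asIdeal) (k / Nat.gcd k (Nat.log p (Ideal.absNorm v.1.asIdeal))) ^
      Nat.gcd k (Nat.log p (Ideal.absNorm v.1.asIdeal))

open Classical in
/-- The logarithm `∑_{k ≥ 1} t(k) p^{-ks} / k` of the Euler factor at `p` with the traces `t(k)`, or `0` if `p` is left out. -/
noncomputable def logFactor (t : ℕ → ℝ) (omitted : Prop) (s : ℂ) (p : ℕ) : ℂ :=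
  if omitted then 0 else ∑' k : ℕ, (t (k + 1) : ℂ) / ((k : ℂ) + 1) * (p : ℂ) ^ (-(((k : ℂ) + 1) * s))

/-- The Euler factors of the Asai motive of `y² = x³ + a x + b`; left out are the primes in `S` and those below a place dividing
`6 (4 a³ + 27 b²)`. -/
noncomputable def asaiFactor (S : Finset ℕ) (a b : 𝓞 K) (s : ℂ) (p : ℕ) : ℂ :=
  logFactor (asaiTrace a b p)
    (p ∈ S ∨ ∃ v : HeightOneSpectrum (𝓞 K), (p : 𝓞 K) ∈ v.asIdeal ∧ 6 * (4 * a ^ 3 + 27 * b ^ 2) ∈ v.asIdeal) s p

end

/-! ### Families of Euler products -/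

section
variable {ι : Type} [Fintype ι] [DecidableEq ι]

/-- The Euler product with the logarithms `F s p` of the factors. -/
noncomputable def LSeries (F : ℂ → ℕ → ℂ) (s : ℂ) : ℂ := ∏' p : Nat.Primes, Complex.exp (F s (p : ℕ))

/-- The integer vectors with coordinates of absolute value at most `H`. -/
noncomputable def box (ι : Type) [Fintype ι] [DecidableEq ι] (H : ℕ) : Finset (ι → ℤ) :=
  Fintype.piFinset fun _ => Finset.Icc (-(H : ℤ)) H

/-- The distribution of the absolute values at the point `1 + w/2` of the edge: a limit distribution function `Φ` which is continuous and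
strictly increasing on `(0, ∞)`, with two-sided double exponential bounds for both tails. -/
def EdgeLaw (w : ℕ) (b : ℝ) (F : (ι → ℤ) → ℂ → ℕ → ℂ) : Prop :=
  ∃ Φ : ℝ → ℝ, ContinuousOn Φ (Set.Ioi 0) ∧ StrictMonoOn Φ (Set.Ioi 0) ∧ (∀ τ : ℝ, 0 < τ → 0 < Φ τ ∧ Φ τ < 1) ∧
    (∃ c C B τ₀ : ℝ, 0 < c ∧ 0 < C ∧ 0 < B ∧ ∀ τ : ℝ, τ₀ ≤ τ →
      Real.exp (-Real.exp (C * τ ^ B)) ≤ Φ (1 / τ) ∧ Φ (1 / τ) ≤ Real.exp (-Real.exp (c * τ ^ (1 / b))) ∧
      Real.exp (-Real.exp (C * τ ^ B)) ≤ 1 - Φ τ ∧ 1 - Φ τ ≤ Real.exp (-Real.exp (c * τ ^ (1 / b)))) ∧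
    ∀ σ : ℕ → ℂ, Tendsto σ atTop (𝓝 (1 + (w : ℂ) / 2)) →
      Tendsto (fun H : ℕ => ((σ H).re - (1 + (w : ℝ) / 2)) * Real.log H) atTop atTop →
      ∀ τ : ℝ, 0 < τ → Tendsto (fun H : ℕ => (((box ι H).filter (fun c => ‖LSeries (F c) (σ H)‖ ≤ τ)).card : ℝ) /
        (box ι H).card) atTop (𝓝 (Φ τ))

open Pool.Agent.N534.PS (Pow lamT) in
theorem LSeries_exp {D : ℝ} {w p0 : ℕ} {T : ∀ p : ℕ, ℕ → (ι → ZMod p) → ℝ}
    {Bad : ∀ p : ℕ, (ι → ZMod p) → Prop} (hp : Pow D w p0 T Bad) {F : (ι → ℤ) → ℂ → ℕ → ℂ}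
    (hF : ∀ (c : ι → ℤ) (s : ℂ) (p : Nat.Primes),
      F c s (p : ℕ) = lamT w p0 T Bad c (p : ℕ) (s - (1 + (w : ℂ) / 2))) (c : ι → ℤ) (s : ℂ) (hs : 1 + (w : ℝ) / 2 < s.re) :
    LSeries (F c) s = Complex.exp (∑' p : Nat.Primes, F c s (p : ℕ)) := by
  have hre : (s - (1 + (w : ℂ) / 2)).re = s.re - (1 + (w : ℝ) / 2) := Pool.Agent.N534.AS.State.re_sub s _
  have hlog : ∑' p : Nat.Primes, F c s (p : ℕ) =
      ∑' p : Nat.Primes, lamT w p0 T Bad c (p : ℕ) (s - (1 + (w : ℂ) / 2)) := tsum_congr fun p => hF c s p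
  rw [hlog]
  unfold LSeries
  rw [← hp.exp_lam c (by rw [hre]; linarith)]
  exact tprod_congr fun p => by rw [hF]

end

/-! ### The family -/

section
variable {K : Type} [Field K] [NumberField K]
variable {I J : Type} [Fintype I] [Fintype J] [DecidableEq I] [DecidableEq J]

/-- The coefficient `A(u)`, for `c = (t, u)`. -/
noncomputable def coeffA (A : MvPolynomial J (𝓞 K)) (c : I ⊕ J → ℤ) : 𝓞 K :=
  MvPolynomial.eval (fun j => ((c (Sum.inr j) : ℤ) : 𝓞 K)) A

/-- The coefficient `B(u) + ∑ t_j ω_j`, for `c = (t, u)`. -/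
noncomputable def coeffB (ω : Module.Basis I ℤ (𝓞 K)) (B : MvPolynomial J (𝓞 K)) (c : I ⊕ J → ℤ) : 𝓞 K :=
  MvPolynomial.eval (fun j => ((c (Sum.inr j) : ℤ) : 𝓞 K)) B + ∑ i, ((c (Sum.inl i) : ℤ) : 𝓞 K) * ω i

open Pool.Agent.N534.EC Pool.Agent.N534.AS Pool.Agent.N534.PS Pool.Agent.N534.LL

theorem asaiFactor_eq (S : Finset ℕ) (a b : 𝓞 K) (s : ℂ) (p : ℕ) :
    asaiFactor S a b s p = Pool.Agent.N534.AS.State.logFactor S a b s p := by
  unfold asaiFactor logFactor Pool.Agent.N534.AS.State.logFactor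
  by_cases h : p ∈ S ∨ ∃ v : HeightOneSpectrum (𝓞 K), (p : 𝓞 K) ∈ v.asIdeal ∧
      6 * (4 * a ^ 3 + 27 * b ^ 2) ∈ v.asIdeal
  · have h' : p ∈ S ∨ ∃ v : HeightOneSpectrum (𝓞 K), (p : 𝓞 K) ∈ v.asIdeal ∧
        Pool.Agent.N534.AS.State.disc a b ∈ v.asIdeal := h
    rw [if_pos h, if_pos h']
  · have h' : ¬ (p ∈ S ∨ ∃ v : HeightOneSpectrum (𝓞 K), (p : 𝓞 K) ∈ v.asIdeal ∧
        Pool.Agent.N534.AS.State.disc a b ∈ v.asIdeal) := h
    rw [if_neg h, if_neg h']
    rfl

/-- **The tensor induction of random elliptic curves: the distribution of the values at the edge.** -/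
theorem result (ω : Module.Basis I ℤ (𝓞 K)) (S : Finset ℕ) (A B : MvPolynomial J (𝓞 K)) (hA : A ≠ 0) :
    EdgeLaw (Module.finrank ℚ K) (2 ^ Module.finrank ℚ K)
      fun (c : I ⊕ J → ℤ) => asaiFactor S (coeffA A c) (coeffB ω B c) := by
  have hz := Pool.Agent.U309.ED.hz_asai (K := K) A hA (Sum.inr : J → I ⊕ J) Sum.inr_injective
  have hF : ∀ (c : I ⊕ J → ℤ) (s : ℂ) (p : Nat.Primes), asaiFactor S (coeffA A c) (coeffB ω B c) s (p : ℕ) = _ := fun c s p =>
    (asaiFactor_eq S _ _ s p).trans (Pool.Agent.N534.AS.State.logFactor_eq S (shift_two ω A B) c s p)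
  exact Pool.Agent.U309.ED.asai_edge (shift_two ω A B) S hz fun c s hs =>
    (LSeries_exp (powA (shift_two ω A B) S) hF c s hs).trans (congrArg Complex.exp (tsum_congr fun p => hF c s p))

end

end Pool.Agent.Results.MP_753a9c_nt.AsaiEdgeDistribution
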