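import Pool.Agent.U187.MV.Sw

/-!
# Mean values suffice for the generalized Sato-Tate conjecture

For abelian varieties over a number field `F`, the following are equivalent: each coefficient of the
normalised `L`-polynomials is equidistributed (question Q1, for all abelian varieties over `F`); the
normalised `L`-polynomials are equidistributed; the *mean values* of the coefficients are the predicted
ones, for a set of indices which can be very sparse.
-/

set_option autoImplicit false

namespace Pool.Agent.Results.MP_753a9c_nt.MeanValuesSuffice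

open Pool.Agent.U187.MV
open Pool.Agent.K4H40.ST (Kbar extend)

/-- Let `F` be a number field, `e : R → ℂ` a homomorphism (`R = ℚ_ℓ` for the `ℓ`-adic representations
of abelian varieties), and `I` a set of indices which contains, for all `a` and all `m > 0`, some
`i ≥ a` with `i ≡ a` modulo `m`.

1. If for all Weil restrictions `B` of `A` from étale algebras over `F` with abelian Galois group and
all `i ∈ I` the coefficient `a_i` of `B` has the predicted mean value, then the normalised
`L`-polynomials of `A` are equidistributed.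

2. For a class of representations which is closed under Weil restriction from abelian extensions, the
equidistribution of all coefficients one by one, the prediction for the mean values of the coefficients
`a_i` with `i ∈ I`, and the joint equidistribution of all coefficients are equivalent. -/
theorem result (F : Type) [Field F] [NumberField F] (R : Type) [CommRing R] (e : R →+* ℂ)
    (I : Set ℕ) (hI : ∀ m, 0 < m → ∀ a, ∃ i ∈ I, a ≤ i ∧ i ≡ a [MOD m]) :
    (∀ (l : Type) [Fintype l] [DecidableEq l] (ρ : Gal(Kbar F/F) →* GL (l ⊕ l) R),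
      (∀ (ι : Type) [Fintype ι] [DecidableEq ι] [Nonempty ι] (π : Gal(Kbar F/F) →* Equiv.Perm ι),
        IsOpen (π.ker : Set Gal(Kbar F/F)) → (∀ σ τ, π σ * π τ = π τ * π σ) →
        ∀ i ∈ I, MeanValue F (Kbar F) (extend (tens ρ π) e) i) →
      JointLaw F (Kbar F) (extend ρ e)) ∧
    ∀ 𝒜 : ∀ (l : Type) [Fintype l] [DecidableEq l], (Gal(Kbar F/F) →* GL (l ⊕ l) R) → Prop,
      IsWeilClosed F (Kbar F) R 𝒜 →
      List.TFAE [
        ∀ (l : Type) [Fintype l] [DecidableEq l] (ρ : Gal(Kbar F/F) →* GL (l ⊕ l) R), 𝒜 l ρ →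
          ∀ i, CoefficientLaw F (Kbar F) (extend ρ e) i,
        ∀ (l : Type) [Fintype l] [DecidableEq l] (ρ : Gal(Kbar F/F) →* GL (l ⊕ l) R), 𝒜 l ρ →
          ∀ i ∈ I, MeanValue F (Kbar F) (extend ρ e) i,
        ∀ (l : Type) [Fintype l] [DecidableEq l] (ρ : Gal(Kbar F/F) →* GL (l ⊕ l) R), 𝒜 l ρ →
          JointLaw F (Kbar F) (extend ρ e)] := by
  have key : ∀ (l : Type) [Fintype l] [DecidableEq l] (ρ : Gal(Kbar F/F) →* GL (l ⊕ l) R),
      (∀ (ι : Type) [Fintype ι] [DecidableEq ι] [Nonempty ι] (π : Gal(Kbar F/F) →* Equiv.Perm ι),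
        IsOpen (π.ker : Set Gal(Kbar F/F)) → (∀ σ τ, π σ * π τ = π τ * π σ) →
        ∀ i ∈ I, MeanValue F (Kbar F) (extend (tens ρ π) e) i) →
      JointLaw F (Kbar F) (extend ρ e) := by
    intro l _ _ ρ h C hC x hx _ _ μ _ _ f hf
    refine joint hC hx μ hI (fun i hi ι _ _ _ π ho hc => ?_) f hf
    rw [← extend_tens]
    exact h ι π ho hc i hi
  refine ⟨key, fun 𝒜 h𝒜 => ?_⟩
  tfae_have 1 → 2 := fun h l _ _ ρ hρ i _ C hC x hx _ _ μ _ _ =>
    h l ρ hρ i C hC x hx μ id continuous_id
  tfae_have 2 → 3 := fun h l _ _ ρ hρ =>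
    key l ρ fun ι _ _ _ π ho hc i hi => h (ι × l) (tens ρ π) (h𝒜 l ρ hρ ι π ho hc) i hi
  tfae_have 3 → 1 := fun h l _ _ ρ hρ i C hC x hx _ _ μ _ _ f hf =>
    h l ρ hρ C hC x hx μ (fun y => f (y i)) (hf.comp (continuous_apply i))
  tfae_finish

end Pool.Agent.Results.MP_753a9c_nt.MeanValuesSuffice
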