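import Pool.Agent.U349.ST.Sym

/-!
# The Sato-Tate law of the coefficients of the `L`-polynomials and the signs of the real parts of the powers of
the Frobenius eigenvalues

`A` is an abelian variety of dimension `g` over `ℚ` and `P` the set of its primes of good reduction. By
Weil, for `p ∈ P` the normalised Euler factor is `∏ (1 - exp(iθ_j) T) (1 - exp(-iθ_j) T)`, the product over
`g` angles `θ_j = θ p j ∈ [0, π]`; the Frobenius eigenvalues are `√p exp(± iθ_j)`, and the sign of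
`cos (m θ_j)` is the sign of the real part of the `m`-th power of the `j`-th pair of eigenvalues.
-/

set_option autoImplicit false

namespace Pool.Agent.Results.MP_753a9c_nt.SignPermanents

open Finset Filter Topology MeasureTheory Polynomial

/-- the coefficients `a_0, …, a_{2g}` of the normalised Euler factor with the angles `x` -/
noncomputable def a {g : ℕ} (x : Fin g → ℝ) (i : Fin (2 * g + 1)) : ℝ :=
  (∏ j, (1 - C (2 * Real.cos (x j)) * X + X ^ 2) : ℝ[X]).coeff i

open Classical in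
/-- the mean value over the elements `p ≤ N` of `P` -/
noncomputable def mean (P : Set ℕ) (F : ℕ → ℝ) (N : ℕ) : ℝ :=
  (∑ p ∈ range (N + 1) with p ∈ P, F p) / #{p ∈ range (N + 1) | p ∈ P}

/-- `1 / g!` times the permanent of the matrix of the signs of `cos (m_i x_j)` -/
noncomputable def signs {g : ℕ} (m : Fin g → ℕ) (x : Fin g → ℝ) : ℝ :=
  (Matrix.of fun i j => Real.sign (Real.cos (m i * x j))).permanent / g.factorial

/-- Weyl's density for `USp(2g)` -/
noncomputable def weyl (g : ℕ) (x : Fin g → ℝ) : ℝ := 2 ^ (g ^ 2) / (g.factorial * Real.pi ^ g) *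
  ((∏ i, Real.sin (x i) ^ 2) * ∏ i, ∏ j ∈ Ioi i, (Real.cos (x j) - Real.cos (x i)) ^ 2)

/-- the nontrivial character modulo 4 -/
noncomputable def chi (l : ℕ) : ℝ := if l % 4 = 1 then 1 else if l % 4 = 3 then -1 else 0

/-- `(1 / π) ∫ sgn(cos (m t)) cos (n t) dt` over `[0, π]` -/
noncomputable def q (m n : ℕ) : ℝ :=
  if m = 0 then (if n = 0 then 1 else 0)
  else if m ∣ n then (2 / Real.pi) * chi (n / m) * m / n else 0

/-- the mean value of `signs m` for `USp(2g)`: the average over the permutations `σ` of the determinant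
of the `g × g` matrix with the entries `q (m_{σ a}) |a - b| - q (m_{σ a}) (a + b)`, `1 ≤ a, b ≤ g` -/
noncomputable def c {g : ℕ} (m : Fin g → ℕ) : ℝ :=
  (∑ σ : Equiv.Perm (Fin g), (Matrix.of fun a b : Fin g =>
    q (m (σ a)) ((a : ℤ) - b).natAbs - q (m (σ a)) (a + b + 2)).det) / g.factorial

lemma c_eq {g : ℕ} (m : Fin g → ℕ) : c m = Pool.Agent.U349.ST.DT m := by
  unfold c Pool.Agent.U349.ST.DT
  congr 1
  refine sum_congr rfl fun σ _ => ?_
  congr 1
  ext a b
  rw [Matrix.of_apply, Matrix.of_apply]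
  unfold Pool.Agent.U349.ST.Mab
  have : ((a : ℤ) - b).natAbs = max (a : ℕ) b - min (a : ℕ) b := by omega
  rw [this]
  rfl

lemma signs_eq {g : ℕ} (m : Fin g → ℕ) (x : Fin g → ℝ) : signs m x = Pool.Agent.U349.ST.SP m x := by
  unfold signs Pool.Agent.U349.ST.SP Matrix.permanent
  rfl

open Classical in
lemma data (g : ℕ) (P : Set ℕ) (hP : P.Nonempty) (θ : ℕ → Fin g → ℝ)
    (hθ : ∀ p j, 0 ≤ θ p j ∧ θ p j ≤ Real.pi) :
    Pool.Agent.U349.ST.DataS (fun N => {p ∈ range (N + 1) | p ∈ P})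
      (fun N => (#{p ∈ range (N + 1) | p ∈ P} : ℝ)) θ := by
  refine ⟨fun i j => (hθ i j).1, fun i j => (hθ i j).2, fun N => Nat.cast_nonneg _, ?_⟩
  obtain ⟨p0, hp0⟩ := hP
  refine tendsto_const_nhds.congr' ?_
  filter_upwards [eventually_ge_atTop p0] with N hN
  have : 0 < #{p ∈ range (N + 1) | p ∈ P} := card_pos.2 ⟨p0, by simp [hp0]; omega⟩
  have h : (#{p ∈ range (N + 1) | p ∈ P} : ℝ) ≠ 0 := by positivity
  exact (div_self h).symm

theorem aux (g : ℕ) (P : Set ℕ) (hP : P.Nonempty) (θ : ℕ → Fin g → ℝ)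
    (hθ : ∀ p j, 0 ≤ θ p j ∧ θ p j ≤ Real.pi) :
    (∀ μ : Measure (Fin g → ℝ), IsProbabilityMeasure μ → (∀ᵐ x ∂μ, ∀ j, 0 ≤ x j ∧ x j ≤ Real.pi) →
      (∀ σ : Equiv.Perm (Fin g), μ.map (fun x j => x (σ j)) = μ) →
      ((∀ m : Fin g → ℕ, Tendsto (mean P fun p => signs m (θ p)) atTop (𝓝 (∫ x, signs m x ∂μ))) →
        ∀ f : (Fin (2 * g + 1) → ℝ) → ℝ, Continuous f →
          Tendsto (mean P fun p => f (a (θ p))) atTop (𝓝 (∫ x, f (a x) ∂μ))) ∧
      ((∀ (j : Fin g) (c : ℝ), μ {x | x j = c} = 0) →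
        (∀ f : (Fin (2 * g + 1) → ℝ) → ℝ, Continuous f →
          Tendsto (mean P fun p => f (a (θ p))) atTop (𝓝 (∫ x, f (a x) ∂μ))) →
        ∀ m : Fin g → ℕ, Tendsto (mean P fun p => signs m (θ p)) atTop (𝓝 (∫ x, signs m x ∂μ)))) ∧
    ((∀ f : (Fin (2 * g + 1) → ℝ) → ℝ, Continuous f →
        Tendsto (mean P fun p => f (a (θ p))) atTop
          (𝓝 (∫ x in Set.pi Set.univ (fun _ : Fin g => Set.Icc 0 Real.pi), f (a x) * weyl g x))) ↔
      ∀ m : Fin g → ℕ, Tendsto (mean P fun p => signs m (θ p)) atTop (𝓝 (c m))) ∧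
    (∀ m : Fin g → ℕ, (∃ j, 2 * g < m j) → c m = 0) := by
  have hd := data g P hP θ hθ
  have h1 : ∀ μ : Measure (Fin g → ℝ), IsProbabilityMeasure μ → (∀ᵐ x ∂μ, ∀ j, 0 ≤ x j ∧ x j ≤ Real.pi) →
      Pool.Agent.U349.ST.PermInv μ →
      ((∀ m : Fin g → ℕ, Tendsto (mean P fun p => signs m (θ p)) atTop (𝓝 (∫ x, signs m x ∂μ))) →
        ∀ f : (Fin (2 * g + 1) → ℝ) → ℝ, Continuous f →
          Tendsto (mean P fun p => f (a (θ p))) atTop (𝓝 (∫ x, f (a x) ∂μ))) ∧
      ((∀ (j : Fin g) (c : ℝ), μ {x | x j = c} = 0) →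
        (∀ f : (Fin (2 * g + 1) → ℝ) → ℝ, Continuous f →
          Tendsto (mean P fun p => f (a (θ p))) atTop (𝓝 (∫ x, f (a x) ∂μ))) →
        ∀ m : Fin g → ℕ, Tendsto (mean P fun p => signs m (θ p)) atTop (𝓝 (∫ x, signs m x ∂μ))) := by
    intro μ _ hμ hi
    simp only [signs_eq]
    constructor
    · intro h
      exact (Pool.Agent.U349.ST.coefLaw_iff hd hμ).2 (Pool.Agent.U349.ST.symLaw_of_permLaw hd hμ hi h)
    · intro hna h
      exact Pool.Agent.U349.ST.permLaw_of_symLaw hd hμ hi hna ((Pool.Agent.U349.ST.coefLaw_iff hd hμ).1 h)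
  refine ⟨fun μ hp hμ hi => h1 μ hp hμ (Pool.Agent.U349.ST.permInv_of_map hi), ?_, ?_⟩
  · have h2 := h1 (Pool.Agent.U349.ST.muW g) inferInstance (Pool.Agent.U349.ST.muW_mem g)
      (Pool.Agent.U349.ST.lamW_perm g)
    have e1 : ∀ m : Fin g → ℕ, ∫ x, signs m x ∂(Pool.Agent.U349.ST.muW g) = c m := by
      intro m
      simp only [signs_eq]
      rw [Pool.Agent.U349.ST.integral_SP, c_eq]
    have e2 : ∀ F : (Fin g → ℝ) → ℝ, ∫ x, F x ∂(Pool.Agent.U349.ST.muW g) =
        ∫ x in Set.pi Set.univ (fun _ : Fin g => Set.Icc 0 Real.pi), F x * weyl g x :=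
      fun F => Pool.Agent.U349.ST.muW_plain g F
    simp only [e1] at h2
    simp only [e2] at h2
    exact ⟨h2.2 (Pool.Agent.U349.ST.muW_na g), h2.1⟩
  · rintro m ⟨j, hj⟩
    rw [c_eq]
    exact Pool.Agent.U349.ST.DT_big m j hj

open Classical in
lemma mean_congr (P : Set ℕ) (F G : ℕ → ℝ) (h : ∀ p ∈ P, F p = G p) : mean P F = mean P G := by
  funext N
  unfold mean
  congr 1
  refine sum_congr rfl fun p hp => ?_
  exact h p (mem_filter.1 hp).2

/-- Let `θ p j ∈ [0, π]`, `j < g`, for the elements `p` of `P`.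

(1) For every law `μ` of unordered angles: if for all `m ∈ ℕ^g` the mean value of `signs m` tends to its
integral, then the vectors of all coefficients `a_0, …, a_{2g}` (in particular each `a_i`) are
equidistributed with respect to the image of `μ`; the converse holds if `μ {x | x j = c} = 0` for all `j`, `c`.

(2) For `USp(2g)`: the vectors `(a_0, …, a_{2g})` are equidistributed with respect to the image of Weyl's
density if and only if for all `m ∈ ℕ^g` the mean value of `signs m` tends to the explicit number `c m`;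
and `c m = 0` if some `m j` is larger than `2g`. -/
theorem result (g : ℕ) (P : Set ℕ) (hP : P.Nonempty) (θ : ℕ → Fin g → ℝ)
    (hθ : ∀ p ∈ P, ∀ j, 0 ≤ θ p j ∧ θ p j ≤ Real.pi) :
    (∀ μ : Measure (Fin g → ℝ), IsProbabilityMeasure μ → (∀ᵐ x ∂μ, ∀ j, 0 ≤ x j ∧ x j ≤ Real.pi) →
      (∀ σ : Equiv.Perm (Fin g), μ.map (fun x j => x (σ j)) = μ) →
      ((∀ m : Fin g → ℕ, Tendsto (mean P fun p => signs m (θ p)) atTop (𝓝 (∫ x, signs m x ∂μ))) →
        ∀ f : (Fin (2 * g + 1) → ℝ) → ℝ, Continuous f →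
          Tendsto (mean P fun p => f (a (θ p))) atTop (𝓝 (∫ x, f (a x) ∂μ))) ∧
      ((∀ (j : Fin g) (c : ℝ), μ {x | x j = c} = 0) →
        (∀ f : (Fin (2 * g + 1) → ℝ) → ℝ, Continuous f →
          Tendsto (mean P fun p => f (a (θ p))) atTop (𝓝 (∫ x, f (a x) ∂μ))) →
        ∀ m : Fin g → ℕ, Tendsto (mean P fun p => signs m (θ p)) atTop (𝓝 (∫ x, signs m x ∂μ)))) ∧
    ((∀ f : (Fin (2 * g + 1) → ℝ) → ℝ, Continuous f →
        Tendsto (mean P fun p => f (a (θ p))) atTop
          (𝓝 (∫ x in Set.pi Set.univ (fun _ : Fin g => Set.Icc 0 Real.pi), f (a x) * weyl g x))) ↔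
      ∀ m : Fin g → ℕ, Tendsto (mean P fun p => signs m (θ p)) atTop (𝓝 (c m))) ∧
    (∀ m : Fin g → ℕ, (∃ j, 2 * g < m j) → c m = 0) := by
  classical
  have h := aux g P hP (fun p j => if p ∈ P then θ p j else 0) (fun p j => by
    beta_reduce
    split_ifs with hp
    · exact hθ p hp j
    · exact ⟨le_rfl, Real.pi_pos.le⟩)
  have e : ∀ F : (Fin g → ℝ) → ℝ, (mean P fun p => F (fun j => if p ∈ P then θ p j else 0)) =
      mean P fun p => F (θ p) := by
    intro F
    refine mean_congr P _ _ fun p hp => ?_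
    simp only [if_pos hp]
  have e1 : ∀ m : Fin g → ℕ, (mean P fun p => signs m (fun j => if p ∈ P then θ p j else 0)) =
      mean P fun p => signs m (θ p) := fun m => e (signs m)
  have e2 : ∀ f : (Fin (2 * g + 1) → ℝ) → ℝ, (mean P fun p => f (a (fun j => if p ∈ P then θ p j else 0))) =
      mean P fun p => f (a (θ p)) := fun f => e (fun x => f (a x))
  simp only [e1, e2] at h
  exact h

end Pool.Agent.Results.MP_753a9c_nt.SignPermanents
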