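import Pool.Agent.U681.STw.Mn

/-!
# MP_753a9c_nt: the laws of the coefficients of the quadratic twists

`K` is a number field (`ℚ` in the problem), `ρ` the representation of `Gal(K̄/K)` on `V_ℓ(A)` for an
abelian variety `A` over `K` (here: any symplectic representation, unramified outside a finite set), `C`
a Sato-Tate group, `x` the system of the Frobenius classes of `A` in `C`.  `A_d` is the quadratic twist
of `A` by `d`; `T` is a finite set of `d`s in different square classes.  The question is about the law of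
the coefficient `a_i` of the normalised `L`-polynomials.

The group `C` is a Sato-Tate group of all twists.  So the generalized Sato-Tate conjecture predicts the
same law for `A` and for all its twists.  We compare the laws at a finite scale `N` (primes of norm at
most `N`), for all `d ∈ T` at the same time.
-/

set_option autoImplicit false

namespace Pool.Agent.Results.MP_753a9c_nt.TwistsFollowOneVariety

open NumberField IsDedekindDomain Filter Topology MeasureTheory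
open Pool.Agent.K4H40.ST Pool.Agent.U681.STw

/-- Question Q1 for the coefficient `a_i`: the numbers `a_i (x v)` are equidistributed for the image of
the measure `μ` on `C`. -/
def Equidistributed (K : Type) [Field K] [NumberField K] {g : ℕ}
    {C : Subgroup (GL (Fin g ⊕ Fin g) ℂ)} (x : HeightOneSpectrum (𝓞 K) → C) [MeasurableSpace C]
    (μ : Measure C) (i : ℕ) : Prop :=
  ∀ f : ℝ → ℝ, Continuous f →
    Tendsto (mean K fun v => f (cf i (x v : GL (Fin g ⊕ Fin g) ℂ))) atTop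
      (𝓝 (∫ c : C, f (cf i (c : GL (Fin g ⊕ Fin g) ℂ)) ∂μ))

/-- **The quadratic twists follow one variety.**

1. `C` is a Sato-Tate group of every quadratic twist.

2. (unconditional) Let `i` be odd and `k ≥ 1`.  At every large scale `N` there are at most `32 k³`
elements `d ∈ T`, however large `T` is, for which the distribution function of `a_i` for `A_d` differs
somewhere by `1/k` or more from the symmetrisation of the distribution function of `a_i` for `A`.

3. Let `μ` be the Haar probability measure of `C`.  If `A` satisfies Q1 for the index `i`, then for every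
continuous `f` and `η > 0`, at every large scale `N`, the sum over the `d ∈ T` of the squares of the
defects `mean of f(a_i(A_d)) - ∫ f(a_i) dμ` is at most `η` plus the integral over `C` of the square of
the odd part of `f`, that is of `(f(a_i(c)) - f(a_i(-c))) / 2`, where `a_i(-c) = (-1)^i a_i(c)`.
(For even `i` it is `0`, and Q1 for `A` implies Q1 for all twists.)

4. If moreover the means of `f(a_i(A_d))` have limits `L d` for `d ∈ T`, then
`∑_{d ∈ T} (L d - ∫ f(a_i) dμ)²` is at most this integral. -/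
theorem result {K : Type} [Field K] [NumberField K] {g : ℕ} {R : Type} [CommRing R]
    (ρ : Gal(AlgebraicClosure K/K) →* GL (Fin g ⊕ Fin g) R) (ι : R →+* ℂ)
    (hsymp : IsSymplectic ρ) (hunr : IsUnramified K (AlgebraicClosure K) ρ)
    (C : Subgroup (GL (Fin g ⊕ Fin g) ℂ)) (hC : IsSatoTateGroup (extend ρ ι) C)
    (x : HeightOneSpectrum (𝓞 K) → C)
    (hx : IsClassSystem K (AlgebraicClosure K) (extend ρ ι) C x) :
    (∀ (d : 𝓞 K) (r' : Gal(AlgebraicClosure K/K) →* GL (Fin g ⊕ Fin g) ℂ),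
      IsTwist (extend ρ ι) r' d → IsSatoTateGroup r' C) ∧
    ∀ T : Finset (𝓞 K), (∀ d ∈ T, d ≠ 0) →
      (∀ d ∈ T, ∀ e ∈ T, d ≠ e → ¬ IsSquare ((d * e : 𝓞 K) : K)) →
    ∀ r' : 𝓞 K → Gal(AlgebraicClosure K/K) →* GL (Fin g ⊕ Fin g) ℂ,
      (∀ d ∈ T, IsTwist (extend ρ ι) (r' d) d) →
    ∀ y : 𝓞 K → HeightOneSpectrum (𝓞 K) → C,
      (∀ d ∈ T, IsClassSystem K (AlgebraicClosure K) (r' d) C (y d)) →
    (∀ k : ℕ, 1 ≤ k → ∀ᶠ N : ℕ in atTop, ∀ i : ℕ, Odd i →
      {d : 𝓞 K | d ∈ T ∧ ∃ t : ℝ, 1 / (k : ℝ) ≤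
        |law K (fun v => cf i (y d v : GL (Fin g ⊕ Fin g) ℂ)) N t -
          (law K (fun v => cf i (x v : GL (Fin g ⊕ Fin g) ℂ)) N t +
            law K (fun v => -cf i (x v : GL (Fin g ⊕ Fin g) ℂ)) N t) / 2|}.ncard ≤ 32 * k ^ 3) ∧
    ∀ [MeasurableSpace C] [BorelSpace C] (μ : Measure C) [IsProbabilityMeasure μ]
      [μ.IsMulLeftInvariant] (i : ℕ), Equidistributed K x μ i →
    ∀ f : ℝ → ℝ, Continuous f →
      (∀ η : ℝ, 0 < η → ∀ᶠ N : ℕ in atTop,
        ∑ d ∈ T, (mean K (fun v => f (cf i (y d v : GL (Fin g ⊕ Fin g) ℂ))) N -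
          ∫ c : C, f (cf i (c : GL (Fin g ⊕ Fin g) ℂ)) ∂μ) ^ 2 ≤
        ∫ c : C, ((f (cf i (c : GL (Fin g ⊕ Fin g) ℂ)) -
          f ((-1) ^ i * cf i (c : GL (Fin g ⊕ Fin g) ℂ))) / 2) ^ 2 ∂μ + η) ∧
      ∀ L : 𝓞 K → ℝ, (∀ d ∈ T, Tendsto (mean K fun v =>
          f (cf i (y d v : GL (Fin g ⊕ Fin g) ℂ))) atTop (𝓝 (L d))) →
        ∑ d ∈ T, (L d - ∫ c : C, f (cf i (c : GL (Fin g ⊕ Fin g) ℂ)) ∂μ) ^ 2 ≤
        ∫ c : C, ((f (cf i (c : GL (Fin g ⊕ Fin g) ℂ)) -
          f ((-1) ^ i * cf i (c : GL (Fin g ⊕ Fin g) ℂ))) / 2) ^ 2 ∂μ := by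
  classical
  refine ⟨fun d r' hr' => st_twist (G1_twist _ _ (zarG_of_twist hC hx hr')) hC,
    fun T hT hT' r' hr' y hy => ?_⟩
  -- the finite set of the bad primes
  set Z : Set (HeightOneSpectrum (𝓞 K)) := ⋃ d ∈ T, {v : HeightOneSpectrum (𝓞 K) |
    ¬ (2 * d ∉ v.asIdeal → ∀ i, cf i (y d v : GL (Fin g ⊕ Fin g) ℂ) =
      Pool.Agent.W529.ST.ch d v ^ i * cf i (x v : GL (Fin g ⊕ Fin g) ℂ))} with hZdef
  have hZ : Z.Finite := Set.Finite.biUnion T.finite_toSet fun d hd =>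
    cls_twist hsymp hunr hC hx (hr' d hd) (hy d hd)
  have hrel : ∀ d ∈ T, ∀ v, v ∉ Z → 2 * d ∉ v.asIdeal → ∀ i,
      cf i (y d v : GL (Fin g ⊕ Fin g) ℂ) =
        Pool.Agent.W529.ST.ch d v ^ i * cf i (x v : GL (Fin g ⊕ Fin g) ℂ) := by
    intro d hd v hv h2d
    by_contra hcon
    exact hv (Set.mem_biUnion hd fun h => hcon (h h2d))
  refine ⟨fun k hk => ?_, ?_⟩
  · filter_upwards [Pool.Agent.W529.ST.count_levels T hT hT' hZ k hk] with N hN i hi
    have h1 := hN (fun v => cf i (x v : GL (Fin g ⊕ Fin g) ℂ))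
      (fun d v => cf i (y d v : GL (Fin g ⊕ Fin g) ℂ)) (fun d hd v hv h2d => by
        rw [hrel d hd v hv h2d i]
        rcases Pool.Agent.W529.ST.ch_dichotomy d h2d with ⟨_, h4⟩ | ⟨_, h4⟩
        · rw [h4, one_pow]
        · rw [h4, hi.neg_one_pow])
    refine le_trans ?_ h1
    rw [← Set.ncard_coe_finset]
    refine Set.ncard_le_ncard ?_ (Finset.finite_toSet _)
    rintro d ⟨hd, t, ht⟩
    refine Finset.mem_coe.2 (Finset.mem_filter.2 ⟨hd, t, ?_⟩)
    have e1 : Pool.Agent.W529.ST.mean K (fun v =>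
        ((if cf i (x v : GL (Fin g ⊕ Fin g) ℂ) ≤ t then 1 else 0) +
          (if -cf i (x v : GL (Fin g ⊕ Fin g) ℂ) ≤ t then (1 : ℝ) else 0)) / 2) N =
        (law K (fun v => cf i (x v : GL (Fin g ⊕ Fin g) ℂ)) N t +
            law K (fun v => -cf i (x v : GL (Fin g ⊕ Fin g) ℂ)) N t) / 2 := by
      have h2 := mn_lin (F := K) (1 / 2) (1 / 2)
        (fun v => if cf i (x v : GL (Fin g ⊕ Fin g) ℂ) ≤ t then (1 : ℝ) else 0)
        (fun v => if -cf i (x v : GL (Fin g ⊕ Fin g) ℂ) ≤ t then (1 : ℝ) else 0) N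
      have h3 : Pool.Agent.W529.ST.mean K (fun v =>
          if cf i (x v : GL (Fin g ⊕ Fin g) ℂ) ≤ t then (1 : ℝ) else 0) N =
          law K (fun v => cf i (x v : GL (Fin g ⊕ Fin g) ℂ)) N t := by
        unfold law
        congr!
      have h4 : Pool.Agent.W529.ST.mean K (fun v =>
          if -cf i (x v : GL (Fin g ⊕ Fin g) ℂ) ≤ t then (1 : ℝ) else 0) N =
          law K (fun v => -cf i (x v : GL (Fin g ⊕ Fin g) ℂ)) N t := by
        unfold law
        congr!
      rw [h3, h4] at h2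
      have h5 : (law K (fun v => cf i (x v : GL (Fin g ⊕ Fin g) ℂ)) N t +
            law K (fun v => -cf i (x v : GL (Fin g ⊕ Fin g) ℂ)) N t) / 2 =
          1 / 2 * law K (fun v => cf i (x v : GL (Fin g ⊕ Fin g) ℂ)) N t +
            1 / 2 * law K (fun v => -cf i (x v : GL (Fin g ⊕ Fin g) ℂ)) N t := by ring
      rw [h5, ← h2]
      congr 1
      funext v
      ring
    have e2 : Pool.Agent.W529.ST.mean K (fun v =>
        if cf i (y d v : GL (Fin g ⊕ Fin g) ℂ) ≤ t then (1 : ℝ) else 0) N =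
        law K (fun v => cf i (y d v : GL (Fin g ⊕ Fin g) ℂ)) N t := by
      unfold law
      congr!
    have ht' := ht
    rw [← e1, ← e2] at ht'
    exact ht'
  · intro _ _ μ _ _ i hi f hf
    have hCle := hC.sub
    have hsp : ∀ c ∈ C, (c : GL (Fin g ⊕ Fin g) ℂ).val ∈ Matrix.symplecticGroup (Fin g) ℂ :=
      fun c hc => (hC.sub hc).2
    -- bounds
    have hs : ∀ j : ℕ, |(-1 : ℝ) ^ j| = 1 := fun j => by rw [abs_pow, abs_neg, abs_one, one_pow]
    obtain ⟨b₁, hb₁⟩ := hC.compact.exists_bound_of_continuousOn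
      (hf.comp (continuous_cf (g := g) i)).continuousOn
    obtain ⟨b₂, hb₂⟩ := hC.compact.exists_bound_of_continuousOn
      (hf.comp (continuous_const.mul (continuous_cf (g := g) i)) :
        Continuous fun c => f ((-1) ^ i * cf i c)).continuousOn
    set b : ℝ := max b₁ b₂ with hb
    have hA : ∀ v, |f (cf i (x v : GL (Fin g ⊕ Fin g) ℂ))| ≤ b := fun v =>
      (hb₁ _ (x v).2).trans (le_max_left _ _)
    have hB : ∀ v, |f ((-1) ^ i * cf i (x v : GL (Fin g ⊕ Fin g) ℂ))| ≤ b := fun v =>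
      (hb₂ _ (x v).2).trans (le_max_right _ _)
    have hfd : ∀ d ∈ T, ∀ v, |f (cf i (y d v : GL (Fin g ⊕ Fin g) ℂ))| ≤ b := fun d _ v =>
      (hb₁ _ (y d v).2).trans (le_max_left _ _)
    have hsymm := symm_law hC.compact hsp (neg_one_C hC hx) μ i hf
    have hcont : ∀ h : ℝ → ℝ, Continuous h → Integrable
        (fun c : C => h (cf i (c : GL (Fin g ⊕ Fin g) ℂ))) μ := by
      intro h hh
      have : CompactSpace C := isCompact_iff_compactSpace.1 hC.compact
      have h1 : Continuous fun c : C => h (cf i (c : GL (Fin g ⊕ Fin g) ℂ)) :=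
        hh.comp ((continuous_cf i).comp continuous_subtype_val)
      exact h1.integrable_of_hasCompactSupport (HasCompactSupport.of_compactSpace _)
    have hI : Tendsto (Pool.Agent.W529.ST.mean K fun v =>
        (f (cf i (x v : GL (Fin g ⊕ Fin g) ℂ)) +
          f ((-1) ^ i * cf i (x v : GL (Fin g ⊕ Fin g) ℂ))) / 2) atTop
        (𝓝 (∫ c : C, f (cf i (c : GL (Fin g ⊕ Fin g) ℂ)) ∂μ)) := by
      have h1 := hi (fun t => (f t + f ((-1) ^ i * t)) / 2) (by fun_prop)
      have h2 : ∫ c : C, (f (cf i (c : GL (Fin g ⊕ Fin g) ℂ)) +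
          f ((-1) ^ i * cf i (c : GL (Fin g ⊕ Fin g) ℂ))) / 2 ∂μ =
          ∫ c : C, f (cf i (c : GL (Fin g ⊕ Fin g) ℂ)) ∂μ := by
        rw [integral_div, integral_add (hcont f hf)
          (hcont (fun t => f ((-1) ^ i * t)) (by fun_prop)), hsymm]
        ring
      rw [h2] at h1
      exact h1
    have hJ : Tendsto (Pool.Agent.W529.ST.mean K fun v =>
        ((f (cf i (x v : GL (Fin g ⊕ Fin g) ℂ)) -
          f ((-1) ^ i * cf i (x v : GL (Fin g ⊕ Fin g) ℂ))) / 2) ^ 2) atTop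
        (𝓝 (∫ c : C, ((f (cf i (c : GL (Fin g ⊕ Fin g) ℂ)) -
          f ((-1) ^ i * cf i (c : GL (Fin g ⊕ Fin g) ℂ))) / 2) ^ 2 ∂μ)) :=
      hi (fun t => ((f t - f ((-1) ^ i * t)) / 2) ^ 2) (by fun_prop)
    have key : ∀ η : ℝ, 0 < η → ∀ᶠ N : ℕ in atTop,
        ∑ d ∈ T, (mean K (fun v => f (cf i (y d v : GL (Fin g ⊕ Fin g) ℂ))) N -
          ∫ c : C, f (cf i (c : GL (Fin g ⊕ Fin g) ℂ)) ∂μ) ^ 2 ≤
        ∫ c : C, ((f (cf i (c : GL (Fin g ⊕ Fin g) ℂ)) -
          f ((-1) ^ i * cf i (c : GL (Fin g ⊕ Fin g) ℂ))) / 2) ^ 2 ∂μ + η := by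
      intro η hη
      refine defect T hT hT' hZ (A := fun v => f (cf i (x v : GL (Fin g ⊕ Fin g) ℂ)))
        (B := fun v => f ((-1) ^ i * cf i (x v : GL (Fin g ⊕ Fin g) ℂ)))
        (fd := fun d v => f (cf i (y d v : GL (Fin g ⊕ Fin g) ℂ))) hA hB hfd ?_ hI hJ hη
      intro d hd v hv h2d
      have h1 := hrel d hd v hv h2d i
      refine ⟨fun h => ?_, fun h => ?_⟩
      · rw [h1, h, one_pow, one_mul]
      · rw [h1, h]
    refine ⟨key, fun L hL => ?_⟩
    refine le_of_forall_pos_le_add fun η hη => ?_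
    have h1 : Tendsto (fun N => ∑ d ∈ T,
        (mean K (fun v => f (cf i (y d v : GL (Fin g ⊕ Fin g) ℂ))) N -
          ∫ c : C, f (cf i (c : GL (Fin g ⊕ Fin g) ℂ)) ∂μ) ^ 2) atTop
        (𝓝 (∑ d ∈ T, (L d - ∫ c : C, f (cf i (c : GL (Fin g ⊕ Fin g) ℂ)) ∂μ) ^ 2)) :=
      tendsto_finsetSum T fun d hd => ((hL d hd).sub_const _).pow 2
    exact le_of_tendsto h1 (key η hη)

end Pool.Agent.Results.MP_753a9c_nt.TwistsFollowOneVariety
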